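import Mathlib
import Pool.Agent.Run7.h94.REq2

set_option autoImplicit false

open MvPolynomial Pool.Agent.K369

universe u

/-- Let `k` be any `C₁` field.  Let `X ⊂ P^n_k` be the scheme defined by `r` forms of positive
degrees `d j`, with no smoothness assumption, and with `X(k)` not empty.  Assume either
`∑ (d j)² ≤ n + 2`, or that for some `s` with `d s ≥ 2` one has
`∑_{j ≠ s} (d j)² + (d s - 1)² + 1 ≤ n` and `∑_{j ≠ s} C(d j + 2, 3) + C(d s, 3) + d s ≤ n`.  Then
`X(k)/R` has exactly one element, and so has `X(K)/R` for every finite extension `K` of `k`. -/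
theorem Pool.Agent.Results.MP_b5db37_ag.AllC1Fields.result {k : Type u} [Field k] (hk : IsC1 k)
    {n r : ℕ} (F : Fin r → MvPolynomial (Fin (n + 1)) k) (d : Fin r → ℕ) (hd : ∀ j, 1 ≤ d j)
    (hF : ∀ j, (F j).IsHomogeneous (d j))
    (h : ∑ j, d j ^ 2 ≤ n + 2 ∨ ∃ s, 2 ≤ d s ∧
      ∑ j ∈ Finset.univ.erase s, d j ^ 2 + (d s - 1) ^ 2 + 1 ≤ n ∧
      ∑ j ∈ Finset.univ.erase s, (d j + 2).choose 3 + (d s).choose 3 + d s ≤ n)
    (hne : (Pt F).Nonempty) :
    Nat.card (RClasses F) = 1 ∧
      ∀ (K : Type u) [Field K] [Algebra k K] [FiniteDimensional k K],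
        Nat.card (RClasses fun j => map (algebraMap k K) (F j)) = 1 := by
  refine ⟨Run7.h94.REq.card_one hk F d hd hF h hne, ?_⟩
  intro K _ _ _
  have hF' : ∀ j, (map (algebraMap k K) (F j)).IsHomogeneous (d j) := fun j => (hF j).map _
  refine Run7.h94.REq.card_one (Run7.h94.REq.isC1_ext hk K) _ d hd hF' h ?_
  obtain ⟨x, hx⟩ := hne
  have hne0 : (fun i => algebraMap k K (x.rep i)) ≠ 0 := by
    intro h0
    apply x.rep_nonzero
    funext i
    have h1 := congrFun h0 i
    simpa using h1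
  refine ⟨Projectivization.mk K _ hne0, mk_mem_Pt hF' hne0 fun j => ?_⟩
  have h1 : eval (fun i => algebraMap k K (x.rep i)) (map (algebraMap k K) (F j)) =
      algebraMap k K (eval x.rep (F j)) := by
    rw [eval_map, eval₂_comp]
    rfl
  rw [h1, hx j, map_zero]
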